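import Pool.Agent.Y408.CS.Main

/-!
# Chromatic `k`-schemes: a linear gap

For every `k ≥ 4864 * 2 ^ 457` there is a finite `k`-chromatic graph without three pairwise
non-adjacent vertices, such that for every `q ≥ (463 / 464) k` no subgraph of it has a chromatic
`q`-scheme, and no subgraph of it has a partial chromatic `q`-scheme, for any number of colours.
The starting file `AllLargeK` has `q = k`.
-/

set_option autoImplicit false

namespace Pool.Agent.Results.MP_ae60c6_co.LinearGap

/-- `HasScheme H q`: the graph `H` has a chromatic `q`-scheme, i.e. a proper `q`-colouring `f`,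
vertices `x i` with `f (x i) = i`, and for all `i < j` a path of `H` from `x i` to `x j` all of
whose vertices have colour `i` or `j` (so the colours alternate, `f` being proper). -/
def HasScheme {W : Type} (H : SimpleGraph W) (q : ℕ) : Prop :=
  ∃ (f : H.Coloring (Fin q)) (x : Fin q → W), (∀ i, f (x i) = i) ∧
    ∀ i j : Fin q, i < j → ∃ P : H.Walk (x i) (x j), P.IsPath ∧
      ∀ w ∈ P.support, f w = i ∨ f w = j

/-- `HasPartialScheme H q`: the graph `H` has a proper colouring `f` with some set `C` of colours
(of any size, so possibly with many more than `q` colours), and `q` vertices `x i` of pairwise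
distinct colours, such that for all `i < j` there is a path of `H` from `x i` to `x j` all of whose
vertices have the colour of `x i` or of `x j`. -/
def HasPartialScheme {W : Type} (H : SimpleGraph W) (q : ℕ) : Prop :=
  ∃ (C : Type) (f : H.Coloring C) (x : Fin q → W), Function.Injective (fun i => f (x i)) ∧
    ∀ i j : Fin q, i < j → ∃ P : H.Walk (x i) (x j), P.IsPath ∧
      ∀ w ∈ P.support, f w = f (x i) ∨ f w = f (x j)

/-- a chromatic `q`-scheme is a partial chromatic `q`-scheme -/
theorem HasScheme.toWeak {W : Type} {H : SimpleGraph W} {q : ℕ} (h : HasScheme H q) :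
    HasPartialScheme H q := by
  obtain ⟨f, x, hx, hP⟩ := h
  refine ⟨Fin q, f, x, ?_, ?_⟩
  · intro i j hij
    have : f (x i) = f (x j) := hij
    rwa [hx, hx] at this
  · intro i j hij
    obtain ⟨P, h1, h2⟩ := hP i j hij
    refine ⟨P, h1, ?_⟩
    intro w hw
    rw [hx, hx]
    exact h2 w hw

theorem HasPartialScheme.kempe {W : Type} {H : SimpleGraph W} {q : ℕ} (h : HasPartialScheme H q) :
    Pool.Agent.Y408.CS.HasKempeClique H q := by
  obtain ⟨C, f, x, hx, hP⟩ := h
  refine ⟨C, f, x, fun a b hab => f.valid hab, hx, ?_⟩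
  intro i j hij
  rcases lt_or_gt_of_ne hij with hlt | hgt
  · obtain ⟨P, _, h2⟩ := hP i j hlt
    exact ⟨P, h2⟩
  · obtain ⟨P, _, h2⟩ := hP j i hgt
    refine ⟨P.reverse, ?_⟩
    intro w hw
    rw [SimpleGraph.Walk.support_reverse, List.mem_reverse] at hw
    exact (h2 w hw).symm

/-- For every `k ≥ 4864 * 2 ^ 457` there is a finite graph `G` with chromatic number `k`, with at
most `2 k` vertices and with no three pairwise non-adjacent vertices, such that no subgraph of `G`
(vertices and edges may be deleted) has a chromatic `k`-scheme.  Moreover, for every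
`q ≥ (463 / 464) k`, no subgraph of `G` has a chromatic `q`-scheme, and no subgraph of `G` has a
partial chromatic `q`-scheme (any number of colours). -/
theorem result : ∀ k : ℕ, 4864 * 2 ^ 457 ≤ k →
    ∃ (V : Type) (_ : Fintype V) (G : SimpleGraph V),
      G.chromaticNumber = k ∧ Fintype.card V ≤ 2 * k ∧
      (∀ a b c : V, a ≠ b → b ≠ c → a ≠ c → G.Adj a b ∨ G.Adj b c ∨ G.Adj a c) ∧
      (∀ G' : G.Subgraph, ¬ HasScheme G'.coe k) ∧
      ∀ q : ℕ, 463 * k ≤ 464 * q → ∀ G' : G.Subgraph,
        ¬ HasScheme G'.coe q ∧ ¬ HasPartialScheme G'.coe q := by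
  intro k hk
  obtain ⟨V, hV, G, h1, h2, h3⟩ := Pool.Agent.Y408.CS.main k hk
  refine ⟨V, hV, G, h1, ?_, h2, ?_, ?_⟩
  · exact Pool.Agent.Y408.CS.card_le_of_alpha h2
      (SimpleGraph.chromaticNumber_le_iff_colorable.1 h1.le)
  · intro G' h
    exact h3 k (Nat.mul_le_mul_right _ (by norm_num)) G' h.toWeak.kempe
  · intro q hq G'
    exact ⟨fun h => h3 q hq G' h.toWeak.kempe, fun h => h3 q hq G' h.kempe⟩

end Pool.Agent.Results.MP_ae60c6_co.LinearGap
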